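import Mathlib

set_option autoImplicit false

namespace Pool.Agent.H.MP_be4214_an

open Complex Set Filter Topology MeasureTheory intervalIntegral
open scoped Real NNReal

noncomputable def M (g : ℂ → ℂ) (j : ℤ) (r : ℝ) : ℂ :=
  ∫ θ in (0 : ℝ)..2 * π, exp (j * θ * I) * g (circleMap 0 r θ)

theorem M_cont (g : ℂ → ℂ) (hg : Continuous g) (j : ℤ) : Continuous (M g j) := by
  unfold M
  refine continuous_parametric_intervalIntegral_of_continuous' ?_ _ _
  unfold circleMap
  fun_prop

theorem circ_eq (g : ℂ → ℂ) (j : ℤ) (r : ℝ) (hr : r ≠ 0) :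
    (∮ z in C(0, r), z ^ (j - 1) * g z) = I * r ^ j * M g j r := by
  rw [M, ← intervalIntegral.integral_const_mul, circleIntegral]
  refine integral_congr fun θ _ => ?_
  have h : circleMap 0 r θ ≠ 0 := circleMap_ne_center hr
  have e : circleMap 0 r θ ^ j = r ^ j * exp (j * θ * I) := by
    rw [circleMap_zero, mul_zpow, ← exp_int_mul, mul_assoc]
  simp only [deriv_circleMap, smul_eq_mul, zpow_sub_one₀ h, e]
  field_simp

theorem four_uniq (d : ℂ → ℂ) (r : ℝ) (hd : ContinuousOn d (Metric.sphere 0 |r|))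
    (h : ∀ j, M d j r = 0) (θ : ℝ) : d (circleMap 0 r θ) = 0 := by
  have : Fact (0 < 2 * π) := ⟨Real.two_pi_pos⟩
  have hp : Function.Periodic (fun θ => d (circleMap 0 r θ)) (2 * π) :=
    (periodic_circleMap 0 r).comp d
  have hc : Continuous fun θ => d (circleMap 0 r θ) :=
    hd.comp_continuous (continuous_circleMap 0 r) (circleMap_mem_sphere' 0 r)
  let D : C(AddCircle (2 * π), ℂ) := ⟨hp.lift, hc.quotient_liftOn' _⟩
  have h0 : ∀ n, fourierCoeff D n = 0 := by
    intro n
    rw [fourierCoeff_eq_intervalIntegral _ _ 0, zero_add]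
    have := h (-n)
    rw [M] at this
    refine smul_eq_zero_of_right _ (Eq.trans (integral_congr fun x _ => ?_) this)
    simp only [fourier_coe_apply, smul_eq_mul]
    congr 2
    have := Real.pi_ne_zero
    push_cast
    field_simp
  have := has_pointwise_sum_fourier_series_of_summable (f := D)
    (by rw [show fourierCoeff D = 0 from funext h0]; exact summable_zero) (θ : AddCircle (2 * π))
  simp only [h0, zero_smul] at this
  exact this.unique hasSum_zero

theorem analytic_of_moments (g : ℂ → ℂ) (hg : Continuous g) (R : ℝ) (hR : 0 < R)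
    (h1 : ∀ m : ℕ, ∀ r ∈ Ioo 0 R, M g (m + 1) r = 0)
    (h2 : ∀ k : ℕ, ∃ c, ∀ r ∈ Ioo 0 R, M g (-k) r = c * r ^ k) : AnalyticAt ℂ g 0 := by
  set ρ : ℝ≥0 := ⟨R / 2, by positivity⟩ with hρ
  have ρ0 : 0 < ρ := half_pos hR
  have ρR : (ρ : ℝ) < R := half_lt_self hR
  have hh := hasFPowerSeriesOn_cauchy_integral (f := g) (c := 0) (R := ρ)
    (hg.continuousOn.circleIntegrable ρ.2) ρ0
  set h := fun w : ℂ => (2 * π * I : ℂ)⁻¹ • ∮ z in C(0, ρ), (z - w)⁻¹ • g z with hdef
  have hd : DifferentiableOn ℂ h (Metric.ball 0 ρ) := by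
    simpa using hh.differentiableOn
  have cp : ∀ (u : ℂ → ℂ) (r : ℝ) (k : ℕ), r ≠ 0 → (cauchyPowerSeries u 0 r k fun _ => 1) =
      (2 * π * I : ℂ)⁻¹ * (I * r ^ (-k : ℤ) * M u (-k) r) := by
    intro u r k hr
    rw [cauchyPowerSeries_apply, ← circ_eq u _ r hr, smul_eq_mul]
    congr 2
    ext z
    rw [show (-k - 1 : ℤ) = -(k + 1 : ℕ) by push_cast; ring, zpow_neg, zpow_natCast]
    simp only [sub_zero, smul_eq_mul, one_div, ← inv_pow]
    ring
  have key : ∀ r : ℝ, 0 < r → r < ρ → ∀ θ, g (circleMap 0 r θ) = h (circleMap 0 r θ) := by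
    intro r r0 rρ θ
    have hd' : DifferentiableOn ℂ h (Metric.closedBall 0 r) :=
      hd.mono (Metric.closedBall_subset_ball rρ)
    have hs : ContinuousOn h (Metric.sphere 0 |r|) := by
      rw [abs_of_pos r0]; exact hd'.continuousOn.mono Metric.sphere_subset_closedBall
    have hc : Continuous fun θ => h (circleMap 0 r θ) :=
      hs.comp_continuous (continuous_circleMap 0 r) (circleMap_mem_sphere' 0 r)
    refine sub_eq_zero.mp (four_uniq (fun z => g z - h z) r (hg.continuousOn.sub hs) (fun j => ?_) θ)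
    have e : M (fun z => g z - h z) j r = M g j r - M h j r := by
      simp only [M, mul_sub]
      exact integral_sub (Continuous.intervalIntegrable (by fun_prop) _ _)
        (Continuous.intervalIntegrable (Continuous.mul (by fun_prop) hc) _ _)
    rw [e, sub_eq_zero]
    have r1 : (r : ℂ) ≠ 0 := ofReal_ne_zero.mpr r0.ne'
    rcases le_or_gt j 0 with hj | hj
    · obtain ⟨k, rfl⟩ : ∃ k : ℕ, j = -k := ⟨(-j).toNat, by omega⟩
      obtain ⟨c, hc⟩ := h2 k
      have p := (DifferentiableOn.hasFPowerSeriesOnBall (R := ⟨r, r0.le⟩) hd'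
        r0).hasFPowerSeriesAt.eq_formalMultilinearSeries hh.hasFPowerSeriesAt
      have q : (cauchyPowerSeries h 0 r k fun _ => 1) = cauchyPowerSeries g 0 ρ k fun _ => 1 := by
        rw [← p]; rfl
      have ρ1 : ((ρ : ℝ) : ℂ) ≠ 0 := ofReal_ne_zero.mpr (NNReal.coe_ne_zero.mpr ρ0.ne')
      rw [cp h r k r0.ne', cp g ρ k (NNReal.coe_ne_zero.mpr ρ0.ne'), hc ρ ⟨ρ0, ρR⟩] at q
      rw [hc r ⟨r0, rρ.trans ρR⟩]
      have := mul_left_cancel₀ (inv_ne_zero two_pi_I_ne_zero) q
      simp only [zpow_neg, zpow_natCast] at this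
      field_simp at this
      linear_combination -this
    · obtain ⟨m, rfl⟩ : ∃ m : ℕ, j = m + 1 := ⟨(j - 1).toNat, by omega⟩
      rw [h1 m r ⟨r0, rρ.trans ρR⟩]
      have q := circ_eq h (m + 1) r r0.ne'
      rw [add_sub_cancel_right, DiffContOnCl.circleIntegral_eq_zero r0.le] at q
      · exact ((mul_eq_zero.mp q.symm).resolve_left
          (mul_ne_zero I_ne_zero (zpow_ne_zero _ r1))).symm
      · simp only [zpow_natCast]
        exact (((differentiableOn_pow m).mul hd').mono Metric.closure_ball_subset_closedBall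
          ).diffContOnCl
  have ev : g =ᶠ[𝓝[≠] 0] h := by
    filter_upwards [self_mem_nhdsWithin, mem_nhdsWithin_of_mem_nhds (Metric.ball_mem_nhds 0 ρ0)]
      with w w0 hw
    have := key ‖w‖ (norm_pos_iff.mpr w0) (by simpa using hw) (arg w)
    rwa [circleMap_zero, norm_mul_exp_arg_mul_I] at this
  have ha : AnalyticAt ℂ h 0 := hh.analyticAt
  have e0 : g 0 = h 0 := tendsto_nhds_unique
    ((hg.continuousAt.tendsto.mono_left nhdsWithin_le_nhds).congr' ev)
    (ha.continuousAt.tendsto.mono_left nhdsWithin_le_nhds)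
  refine ha.congr ?_
  rw [← nhdsNE_sup_pure, EventuallyEq, eventually_sup]
  exact ⟨ev.symm, e0.symm⟩

end Pool.Agent.H.MP_be4214_an
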