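import Mathlib

set_option autoImplicit false

namespace Pool.Agent.H.MP_be4214_an

open Complex Set Filter Topology MeasureTheory intervalIntegral

noncomputable def B (f : ℂ → ℂ) (a b c d : ℝ) : ℂ :=
  (∫ x : ℝ in a..b, f (x + c * I)) - (∫ x : ℝ in a..b, f (x + d * I)) +
    I • (∫ y : ℝ in c..d, f (b + y * I)) - I • ∫ y : ℝ in c..d, f (a + y * I)

theorem B_addx (f : ℂ → ℂ) (hf : Continuous f) (a b e c d : ℝ) :
    B f a e c d - B f a b c d = B f b e c d := by
  have h : ∀ t : ℝ, (∫ x : ℝ in a..b, f (x + t * I)) + ∫ x : ℝ in b..e, f (x + t * I) =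
      ∫ x : ℝ in a..e, f (x + t * I) := fun t =>
    integral_add_adjacent_intervals (Continuous.intervalIntegrable (by fun_prop) _ _)
      (Continuous.intervalIntegrable (by fun_prop) _ _)
  simp only [B, ← h, smul_eq_mul]
  ring

theorem B_addy (f : ℂ → ℂ) (hf : Continuous f) (a b c d e : ℝ) :
    B f a b c e = B f a b c d + B f a b d e := by
  have h : ∀ t : ℝ, (∫ y : ℝ in c..d, f (t + y * I)) + ∫ y : ℝ in d..e, f (t + y * I) =
      ∫ y : ℝ in c..e, f (t + y * I) := fun t =>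
    integral_add_adjacent_intervals (Continuous.intervalIntegrable (by fun_prop) _ _)
      (Continuous.intervalIntegrable (by fun_prop) _ _)
  simp only [B, ← h, smul_eq_mul]
  ring

theorem B_bound (f : ℂ → ℂ) (hf : Continuous f) (a b c d ε : ℝ) (v : ℂ)
    (h : ∀ x ∈ uIcc a b, ∀ y ∈ uIcc c d, ‖f (x + y * I) - v‖ ≤ ε) :
    ‖B f a b c d‖ ≤ 2 * ε * (|b - a| + |d - c|) := by
  have e1 : ∀ t : ℝ, ∫ x : ℝ in a..b, f (x + t * I) =
      (∫ x : ℝ in a..b, (f (x + t * I) - v)) + (b - a) • v := by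
    intro t
    rw [integral_sub (Continuous.intervalIntegrable (by fun_prop) _ _) intervalIntegrable_const]
    simp
  have e2 : ∀ t : ℝ, ∫ y : ℝ in c..d, f (t + y * I) =
      (∫ y : ℝ in c..d, (f (t + y * I) - v)) + (d - c) • v := by
    intro t
    rw [integral_sub (Continuous.intervalIntegrable (by fun_prop) _ _) intervalIntegrable_const]
    simp
  have b1 : ∀ t ∈ uIcc c d, ‖∫ x : ℝ in a..b, (f (x + t * I) - v)‖ ≤ ε * |b - a| := fun t ht =>
    norm_integral_le_of_norm_le_const fun x hx => h x (uIoc_subset_uIcc hx) t ht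
  have b2 : ∀ t ∈ uIcc a b, ‖∫ y : ℝ in c..d, (f (t + y * I) - v)‖ ≤ ε * |d - c| := fun t ht =>
    norm_integral_le_of_norm_le_const fun y hy => h t ht y (uIoc_subset_uIcc hy)
  have c1 := b1 c left_mem_uIcc
  have c2 := b1 d right_mem_uIcc
  have c3 := b2 a left_mem_uIcc
  have c4 := b2 b right_mem_uIcc
  simp only [B, e1, e2]
  generalize (∫ x : ℝ in a..b, (f (x + c * I) - v)) = p1 at *
  generalize (∫ x : ℝ in a..b, (f (x + d * I) - v)) = p2 at *
  generalize (∫ y : ℝ in c..d, (f (a + y * I) - v)) = p3 at *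
  generalize (∫ y : ℝ in c..d, (f (b + y * I) - v)) = p4 at *
  have e : p1 + (b - a) • v - (p2 + (b - a) • v) + I • (p4 + (d - c) • v) -
      I • (p3 + (d - c) • v) = (p1 - p2) + I * (p4 - p3) := by
    simp only [smul_eq_mul]; ring
  rw [e]
  have t1 := norm_add_le (p1 - p2) (I * (p4 - p3))
  have t2 := norm_sub_le p1 p2
  have t3 := norm_sub_le p4 p3
  rw [norm_mul, norm_I, one_mul] at t1
  linarith

theorem B_zero (f : ℂ → ℂ) (hf : Continuous f) (a b c d : ℝ) (hcd : c ≤ d)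
    (h : ∀ p : ℂ, p.re ∈ uIcc a b → c < p.im → p.im < d → DifferentiableAt ℂ f p) :
    B f a b c d = 0 :=
  integral_boundary_rect_eq_zero_of_differentiable_on_off_countable f ⟨a, c⟩ ⟨b, d⟩ ∅
    countable_empty hf.continuousOn fun p hp => by
      have h1 := hp.1.1
      have h2 := hp.1.2
      simp only [mem_preimage, min_eq_left hcd, max_eq_right hcd] at h1 h2
      exact h p (Ioo_subset_Icc_self h1) h2.1 h2.2

theorem B_graph (f : ℂ → ℂ) (hf : Continuous f) (L : ℝ) (hL : 0 ≤ L) (γ : ℝ → ℝ)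
    (hγ : ∀ x y, |γ x - γ y| ≤ L * |x - y|) (a b c d : ℝ) (hcd : c ≤ d)
    (h : ∀ p : ℂ, p.re ∈ uIcc a b → p.im ∈ Icc c d → p.im ≠ γ p.re → DifferentiableAt ℂ f p) :
    B f a b c d = 0 := by
  have key : ∀ x ∈ uIcc a b, HasDerivWithinAt (fun t => B f a t c d) 0 (uIcc a b) x := by
    intro x hx
    rw [hasDerivWithinAt_iff_isLittleO, Asymptotics.isLittleO_iff]
    intro ε hε
    set y0 := max c (min (γ x) d) with hy0
    obtain ⟨η, η0, hη⟩ := Metric.continuous_iff.mp hf (x + y0 * I) (ε / (2 + 4 * L))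
      (by positivity)
    filter_upwards [self_mem_nhdsWithin, mem_nhdsWithin_of_mem_nhds
      (Metric.ball_mem_nhds x (show 0 < η / (1 + L) by positivity))] with x' hx' hb
    rw [Metric.mem_ball, Real.dist_eq, lt_div_iff₀ (by positivity)] at hb
    set k := |x' - x| with hk
    have k0 : 0 ≤ L * k := by positivity
    have hin : ∀ t ∈ uIcc x x', t ∈ uIcc a b ∧ |t - x| ≤ k := fun t ht =>
      ⟨uIcc_subset_uIcc hx hx' ht, abs_sub_left_of_mem_uIcc ht⟩
    have hg : ∀ t ∈ uIcc x x', γ x - L * k ≤ γ t ∧ γ t ≤ γ x + L * k := by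
      intro t ht
      have := abs_le.mp ((hγ t x).trans (mul_le_mul_of_nonneg_left (hin t ht).2 hL))
      constructor <;> linarith [this.1, this.2]
    set y1 := max c (min (γ x - L * k) d) with hy1
    set y2 := max c (min (γ x + L * k) d) with hy2
    have z1 : B f x x' c y1 = 0 := B_zero f hf _ _ _ _ (le_max_left _ _) fun p p1 p2 p3 => by
      have := lt_min_iff.mp ((lt_max_iff.mp p3).resolve_left p2.not_gt)
      exact h p (hin _ p1).1 ⟨p2.le, this.2.le⟩ (this.1.trans_le (hg _ p1).1).ne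
    have z2 : B f x x' y2 d = 0 := B_zero f hf _ _ _ _ (max_le hcd (min_le_right _ _))
      fun p p1 p2 p3 => by
      have h1 := max_lt_iff.mp p2
      have := (min_lt_iff.mp h1.2).resolve_right p3.not_gt
      exact h p (hin _ p1).1 ⟨h1.1.le, p3.le⟩ ((hg _ p1).2.trans_lt this).ne'
    have w1 : y0 - L * k ≤ y1 ∧ y1 ≤ y0 := by
      simp only [hy0, hy1, max_def, min_def]
      constructor <;> split_ifs <;> linarith
    have w2 : y0 ≤ y2 ∧ y2 ≤ y0 + L * k := by
      simp only [hy0, hy2, max_def, min_def]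
      constructor <;> split_ifs <;> linarith
    have z3 := B_bound f hf x x' y1 y2 (ε / (2 + 4 * L)) (f (x + y0 * I)) fun s hs t ht => by
      rw [uIcc_of_le (w1.2.trans w2.1)] at ht
      rw [← dist_eq_norm]
      refine (hη _ ?_).le
      have e : (s + t * I : ℂ) - (x + y0 * I) = ((s - x : ℝ) : ℂ) + ((t - y0 : ℝ) : ℂ) * I := by
        push_cast; ring
      rw [dist_eq_norm, e]
      refine (norm_add_le _ _).trans_lt ?_
      rw [norm_mul, norm_I, mul_one, norm_real, norm_real, Real.norm_eq_abs, Real.norm_eq_abs]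
      have : |t - y0| ≤ L * k := abs_le.mpr ⟨by linarith [ht.1, w1.1], by linarith [ht.2, w2.2]⟩
      linarith [(hin s hs).2]
    rw [smul_zero, sub_zero, B_addx f hf, B_addy f hf x x' c y1, B_addy f hf x x' y1 y2, z1, z2,
      zero_add, add_zero, Real.norm_eq_abs]
    refine z3.trans ?_
    have h3 : |y2 - y1| ≤ 2 * (L * k) := abs_le.mpr ⟨by linarith [w1.2, w2.1],
      by linarith [w1.1, w2.2]⟩
    calc 2 * (ε / (2 + 4 * L)) * (k + |y2 - y1|) ≤ 2 * (ε / (2 + 4 * L)) * (k + 2 * (L * k)) := by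
          gcongr
      _ = ε * k := by field_simp; ring
  have := (convex_uIcc a b).norm_image_sub_le_of_norm_hasDerivWithin_le (C := 0) key
    (fun _ _ => by simp) left_mem_uIcc right_mem_uIcc
  simpa [B] using this

theorem graph_removable (f : ℂ → ℂ) (hf : Continuous f) (V : Set ℂ) (hV : IsOpen V) (L : ℝ)
    (hL : 0 ≤ L) (F : Set ℂ) (hF : ∀ w ∈ F, ∀ w' ∈ F, |w.im - w'.im| ≤ L * |w.re - w'.re|)
    (hd : ∀ z ∈ V, z ∉ F → DifferentiableAt ℂ f z) : DifferentiableOn ℂ f V := by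
  classical
  let g : ℝ → ℝ := fun x => if h : ∃ w ∈ F, w.re = x then h.choose.im else 0
  have hg : ∀ w ∈ F, g w.re = w.im := by
    intro w hw
    have h : ∃ u ∈ F, u.re = w.re := ⟨w, hw, rfl⟩
    have := hF _ h.choose_spec.1 w hw
    rw [h.choose_spec.2, sub_self, abs_zero, mul_zero, abs_nonpos_iff, sub_eq_zero] at this
    simp only [g, dif_pos h, this]
  have hl : LipschitzOnWith ⟨L, hL⟩ g (re '' F) := by
    refine LipschitzOnWith.of_dist_le_mul ?_
    rintro _ ⟨w, hw, rfl⟩ _ ⟨w', hw', rfl⟩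
    rw [hg w hw, hg w' hw']
    exact hF w hw w' hw'
  obtain ⟨γ, h1, h2⟩ := hl.extend_real
  have key : ∀ a b c d : ℝ, c ≤ d → (∀ p : ℂ, p.re ∈ uIcc a b → p.im ∈ Icc c d → p ∈ V) →
      B f a b c d = 0 := fun a b c d hcd h =>
    B_graph f hf L hL γ (fun x y => h1.dist_le_mul x y) a b c d hcd fun p p1 p2 p3 =>
      hd p (h p p1 p2) fun hp => p3 ((hg p hp).symm.trans (h2 ⟨p, hp, rfl⟩))
  refine (isConservativeOn_and_continuousOn_iff_isDifferentiableOn hV).mp
    ⟨fun z w hzw => ?_, hf.continuousOn⟩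
  rw [← add_eq_zero_iff_eq_neg]
  rcases le_total z.im w.im with h | h
  · rw [wedgeIntegral_add_wedgeIntegral_eq]
    exact key _ _ _ _ h fun p p1 p2 => hzw ⟨p1, Icc_subset_uIcc p2⟩
  · rw [add_comm, wedgeIntegral_add_wedgeIntegral_eq]
    exact key _ _ _ _ h fun p p1 p2 => hzw ⟨uIcc_comm w.re z.re ▸ p1, Icc_subset_uIcc' p2⟩

end Pool.Agent.H.MP_be4214_an
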