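import Mathlib
import Pool.Agent.H.MP_be4214_an.Four

set_option autoImplicit false

namespace Pool.Agent.H.MP_be4214_an

open Complex Set Filter Topology MeasureTheory
open scoped Real NNReal ContDiff Convolution ComplexConjugate

def Van (f : ℂ → ℂ) (S : Set ℂ) (K : ℂ → ℂ) : Prop := ∀ z ∈ S, ∫ w, f (z + w) * K w = 0

def Flat (S : Set ℂ) : Prop :=
  ∀ G : ℂ → ℂ, ContDiff ℝ 1 G → (∀ z ∈ S, G z = 0) → ∀ z ∈ S, ∀ v, fderiv ℝ G z v = 0

theorem conv_eq (f K : ℂ → ℂ) (z : ℂ) :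
    (f ⋆[ContinuousLinearMap.mul ℝ ℂ, volume] fun u => K (-u)) z = ∫ w, f (z + w) * K w := by
  rw [convolution_def, ← integral_add_left_eq_self _ z]
  simp

theorem van_deriv {f : ℂ → ℂ} (hf : Continuous f) {S : Set ℂ} (hS : Flat S) (K : ℂ → ℂ)
    (hK : ContDiff ℝ 1 K) (hc : HasCompactSupport K) (h : Van f S K) (v : ℂ) :
    Van f S fun w => fderiv ℝ K w v := by
  intro z hz
  have hK' : ContDiff ℝ 1 fun u => K (-u) := hK.comp contDiff_neg
  have hc' : HasCompactSupport fun u => K (-u) := hc.comp_homeomorph (Homeomorph.neg ℂ)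
  have h1 := hS _ (hc'.contDiff_convolution_right (n := 1) (ContinuousLinearMap.mul ℝ ℂ)
    hf.locallyIntegrable hK') (fun z hz => (conv_eq f K z).trans (h z hz)) z hz v
  rw [(hc'.hasFDerivAt_convolution_right (ContinuousLinearMap.mul ℝ ℂ) hf.locallyIntegrable hK'
    z).fderiv, convolution_precompR_apply _ hf.locallyIntegrable (hc'.fderiv ℝ)
      (hK'.continuous_fderiv one_ne_zero)] at h1
  have e : (fun a => fderiv ℝ (fun u => K (-u)) a v) = fun a => -fderiv ℝ K (-a) v := by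
    ext a
    have := ((hK.differentiable one_ne_zero (-a)).hasFDerivAt.comp a
      (hasFDerivAt_id (𝕜 := ℝ) a).neg).fderiv
    rw [show (fun u => K (-u)) = K ∘ Neg.neg from rfl, this]
    simp
  rw [e, conv_eq f (fun w => -fderiv ℝ K w v)] at h1
  simpa [integral_neg] using h1

noncomputable def Ker (a b : ℕ) (ψ : ℝ → ℝ) (w : ℂ) : ℂ := w ^ a * conj w ^ b * ψ (‖w‖ ^ 2)

def Cl (R : ℝ) (ψ : ℝ → ℝ) : Prop := ContDiff ℝ ∞ ψ ∧ ∀ s, R ^ 2 ≤ s → ψ s = 0

theorem Ker_cd (a b : ℕ) {R : ℝ} {ψ : ℝ → ℝ} (h : Cl R ψ) : ContDiff ℝ 1 (Ker a b ψ) :=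
  ((contDiff_id.pow a).mul (conjCLE.contDiff.pow b)).mul
    (ofRealCLM.contDiff.comp ((h.1.of_le (by simp)).comp (contDiff_norm_sq ℝ)))

theorem Ker_cs (a b : ℕ) {R : ℝ} {ψ : ℝ → ℝ} (h : Cl R ψ) : HasCompactSupport (Ker a b ψ) :=
  HasCompactSupport.intro (isCompact_closedBall 0 |R|) fun w hw => by
    rw [mem_closedBall_zero_iff, not_le] at hw
    rw [Ker, h.2 _ (by rw [← sq_abs R]; gcongr)]
    simp

theorem Ker_fderiv (a b : ℕ) {R : ℝ} {ψ : ℝ → ℝ} (h : Cl R ψ) (w v : ℂ) :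
    fderiv ℝ (Ker a b ψ) w v =
      (a * w ^ (a - 1) * conj w ^ b * ψ (‖w‖ ^ 2) + w ^ a * conj w ^ (b + 1) * deriv ψ (‖w‖ ^ 2)) * v +
      (b * w ^ a * conj w ^ (b - 1) * ψ (‖w‖ ^ 2) + w ^ (a + 1) * conj w ^ b * deriv ψ (‖w‖ ^ 2)) *
        conj v := by
  have h1 := (hasDerivAt_pow a w).hasFDerivAt.restrictScalars ℝ
  have h2 := ((hasDerivAt_pow b (conj w)).hasFDerivAt.restrictScalars ℝ).comp w
    conjCLE.hasFDerivAt
  have h3 := ofRealCLM.hasFDerivAt.comp w
    ((h.1.differentiable (by simp) (‖w‖ ^ 2)).hasDerivAt.comp_hasFDerivAt w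
      (hasStrictFDerivAt_norm_sq w).hasFDerivAt)
  have h4 : HasFDerivAt (Ker a b ψ) _ w := (h1.mul h2).mul h3
  rw [h4.fderiv]
  have e : ((2 * (v * conj w).re : ℝ) : ℂ) = v * conj w + conj v * w := by
    rw [← add_conj]; simp
  push_cast at e
  simp [-mul_re]
  linear_combination (w ^ a * conj w ^ b * ((deriv ψ (‖w‖ ^ 2) : ℝ) : ℂ)) * e

theorem van_AB {f : ℂ → ℂ} (hf : Continuous f) {S : Set ℂ} (hS : Flat S) (K A B : ℂ → ℂ)
    (hK : ContDiff ℝ 1 K) (hc : HasCompactSupport K) (h : Van f S K)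
    (hd : ∀ w v, fderiv ℝ K w v = A w * v + B w * conj v) : Van f S A ∧ Van f S B := by
  have i : ∀ z v, Integrable fun w => f (z + w) * fderiv ℝ K w v := fun z v =>
    Continuous.integrable_of_hasCompactSupport
      ((hf.comp (continuous_const_add z)).mul ((hK.continuous_fderiv one_ne_zero).clm_apply
        continuous_const)) (hc.fderiv_apply ℝ v).mul_left
  have key : ∀ (c d : ℂ), Van f S fun w => c * fderiv ℝ K w 1 + d * fderiv ℝ K w I := by
    intro c d z hz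
    simp only [mul_add, mul_left_comm (f _)]
    rw [integral_add ((i z 1).const_mul c) ((i z I).const_mul d), integral_const_mul,
      integral_const_mul, van_deriv hf hS K hK hc h 1 z hz, van_deriv hf hS K hK hc h I z hz]
    simp
  constructor
  · convert key (1 / 2) (-I / 2) using 2 with w
    simp only [hd, map_one, conj_I]
    linear_combination ((A w - B w) / 2) * I_mul_I
  · convert key (1 / 2) (I / 2) using 2 with w
    simp only [hd, map_one, conj_I]
    linear_combination ((B w - A w) / 2) * I_mul_I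

theorem Cl.prim {R : ℝ} {ψ : ℝ → ℝ} (h : Cl R ψ) : ∃ φ, Cl R φ ∧ deriv φ = ψ := by
  have d : ∀ s, HasDerivAt (fun s => ∫ t in R ^ 2..s, ψ t) (ψ s) s := fun s =>
    (h.1.continuous.integral_hasStrictDerivAt _ s).hasDerivAt
  have e : deriv (fun s => ∫ t in R ^ 2..s, ψ t) = ψ := funext fun s => (d s).deriv
  refine ⟨_, ⟨contDiff_infty_iff_deriv.mpr ⟨fun s => (d s).differentiableAt, e.symm ▸ h.1⟩,
    fun s hs => ?_⟩, e⟩
  rw [intervalIntegral.integral_congr (g := fun _ => 0)]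
  · simp
  · intro t ht
    rw [uIcc_of_le hs] at ht
    exact h.2 t ht.1

theorem Cl.der {R : ℝ} {ψ φ : ℝ → ℝ} (hφ : Cl R φ) (h : Cl R ψ) (c : ℝ) :
    Cl R fun s => c * φ s + s * ψ s :=
  ⟨(contDiff_const.mul hφ.1).add (contDiff_id.mul h.1), fun s hs => by simp [hφ.2 s hs, h.2 s hs]⟩

theorem fam1 {f : ℂ → ℂ} (hf : Continuous f) {S : Set ℂ} (hS : Flat S) (R : ℝ)
    (h0 : ∀ ψ, Cl R ψ → Van f S (Ker 1 0 ψ)) (m : ℕ) : ∀ ψ, Cl R ψ → Van f S (Ker (m + 1) 0 ψ) := by
  induction m with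
  | zero => exact h0
  | succ m ih =>
    intro ψ hψ
    obtain ⟨φ, h1, rfl⟩ := hψ.prim
    convert (van_AB hf hS _ _ _ (Ker_cd _ _ h1) (Ker_cs _ _ h1) (ih φ h1)
      (Ker_fderiv _ _ h1)).2 using 2 with w
    simp [Ker]

theorem fam2 {f : ℂ → ℂ} (hf : Continuous f) {S : Set ℂ} (hS : Flat S) (R : ℝ)
    (h0 : ∀ ψ, Cl R ψ → Van f S (Ker 1 0 ψ)) (k : ℕ) : ∀ φ, Cl R φ → Cl R (deriv φ) →
      Van f S (Ker 0 k fun s => (k + 1) * φ s + s * deriv φ s) := by
  induction k with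
  | zero =>
    intro φ h1 _
    convert (van_AB hf hS _ _ _ (Ker_cd _ _ h1) (Ker_cs _ _ h1) (h0 φ h1)
      (Ker_fderiv _ _ h1)).1 using 2 with w
    simp [Ker, mul_conj, normSq_eq_norm_sq]
  | succ k ih =>
    intro ψ hψ _
    obtain ⟨φ, h1, rfl⟩ := hψ.prim
    have h2 := h1.der hψ (k + 1)
    convert (van_AB hf hS _ _ _ (Ker_cd _ _ h2) (Ker_cs _ _ h2) (ih φ h1 hψ)
      (Ker_fderiv _ _ h2)).1 using 2 with w
    have d := (((h1.1.differentiable (by simp) (‖w‖ ^ 2)).hasDerivAt.const_mul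
      ((k : ℝ) + 1)).fun_add ((hasDerivAt_id' (‖w‖ ^ 2)).fun_mul
        (hψ.1.differentiable (by simp) (‖w‖ ^ 2)).hasDerivAt)).deriv
    rw [d]
    simp [Ker]
    left
    ring

noncomputable def N (g : ℂ → ℂ) (j : ℤ) (n : ℕ) (s : ℝ) : ℂ := (√s : ℂ) ^ n * M g j √s

theorem N_cont (g : ℂ → ℂ) (hg : Continuous g) (j : ℤ) (n : ℕ) : Continuous (N g j n) := by
  have := M_cont g hg j
  unfold N
  fun_prop

theorem polar (g : ℂ → ℂ) (hg : Continuous g) (a b : ℕ) {R : ℝ} (hR : 0 < R) {ψ : ℝ → ℝ}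
    (h : Cl R ψ) :
    2 * ∫ w, g w * Ker a b ψ w = ∫ s in (0 : ℝ)..R ^ 2, ψ s • N g (a - b) (a + b) s := by
  have hψ := h.1.continuous
  let F : ℝ × ℝ → ℂ := fun p => ((p.1 : ℂ) ^ (a + b + 1) * ψ (p.1 ^ 2)) *
    (exp ((a - b : ℤ) * p.2 * I) * g (circleMap 0 p.1 p.2))
  have hF : Continuous F := by
    simp only [F, circleMap]
    fun_prop
  have e1 : ∫ w, g w * Ker a b ψ w = ∫ p in Ioi 0 ×ˢ Ioo (-π) π, F p := by
    rw [← Complex.integral_comp_polarCoord_symm, polarCoord_target]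
    refine setIntegral_congr_fun (measurableSet_Ioi.prod measurableSet_Ioo) fun p hp => ?_
    have e : Complex.polarCoord.symm p = circleMap 0 p.1 p.2 := by
      rw [Complex.polarCoord_symm_apply, circleMap_zero, exp_mul_I]; simp
    have e2 : exp ((a - b : ℤ) * p.2 * I) = exp (p.2 * I) ^ a * exp (-(p.2 * I)) ^ b := by
      rw [← exp_nat_mul, ← exp_nat_mul, ← exp_add]; congr 1; push_cast; ring
    have e3 : conj (circleMap 0 p.1 p.2) = p.1 * exp (-(p.2 * I)) := by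
      rw [circleMap_zero, map_mul, ← exp_conj]; simp
    simp only [e, F, Ker, e2, e3, norm_circleMap_zero, sq_abs, real_smul]
    rw [circleMap_zero]
    ring
  have i : IntegrableOn F (Ioi 0 ×ˢ Ioo (-π) π) (volume.prod volume) := by
    refine (hF.continuousOn.integrableOn_compact (μ := volume.prod volume)
      ((isCompact_Icc (a := 0) (b := R)).prod (isCompact_Icc (a := -π) (b := π)))
      ).of_forall_sdiff_eq_zero (measurableSet_Ioi.prod measurableSet_Ioo) fun p hp => ?_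
    have : R < p.1 := by
      by_contra k
      exact hp.2 ⟨⟨le_of_lt hp.1.1, not_lt.mp k⟩, Ioo_subset_Icc_self hp.1.2⟩
    simp [F, h.2 _ (show R ^ 2 ≤ p.1 ^ 2 by gcongr)]
  rw [e1, Measure.volume_eq_prod, setIntegral_prod _ i, intervalIntegral.integral_of_le
    (by positivity), ← setIntegral_eq_of_subset_of_forall_sdiff_eq_zero measurableSet_Ioi
      Ioc_subset_Ioi_self (fun s hs => by
        rw [h.2 s (not_lt.mp fun k => hs.2 ⟨hs.1, k.le⟩), zero_smul]),
    ← integral_comp_rpow_Ioi_of_pos (g := fun s => ψ s • N g (a - b) (a + b) s) two_pos,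
    ← integral_const_mul]
  refine setIntegral_congr_fun measurableSet_Ioi fun r hr => ?_
  have hp : Function.Periodic (fun θ : ℝ => exp ((a - b : ℤ) * θ * I) * g (circleMap 0 r θ))
      (2 * π) := fun θ => by
    simp only [periodic_circleMap 0 r θ]
    congr 1
    rw [← (exp_periodic.int_mul (a - b : ℤ)) ((a - b : ℤ) * θ * I)]
    congr 1
    push_cast
    ring
  have := hp.intervalIntegral_add_eq (-π) 0
  rw [show -π + 2 * π = π by ring, zero_add, intervalIntegral.integral_of_le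
    (by linarith [Real.pi_pos]), integral_Ioc_eq_integral_Ioo] at this
  simp only [F, integral_const_mul, this, N, Real.rpow_two, Real.sqrt_sq (le_of_lt hr), M,
    real_smul]
  norm_num
  ring

theorem fund (n : ℝ → ℂ) (hn : Continuous n) (R : ℝ)
    (h : ∀ ψ, Cl R ψ → ∫ s in (0 : ℝ)..R ^ 2, ψ s • n s = 0) : ∀ s ∈ Ioo 0 (R ^ 2), n s = 0 := by
  refine Measure.eqOn_open_of_ae_eq (μ := volume) ?_ isOpen_Ioo hn.continuousOn continuousOn_const
  refine (ae_restrict_iff' measurableSet_Ioo).mpr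
    (isOpen_Ioo.ae_eq_zero_of_integral_contDiff_smul_eq_zero
      (hn.locallyIntegrable.locallyIntegrableOn _) fun g g1 _ g3 => ?_)
  rw [← h g ⟨g1, fun s hs => image_eq_zero_of_notMem_tsupport fun k => (g3 k).2.not_ge hs⟩,
    intervalIntegral.integral_eq_integral_of_support_subset]
  intro s hs
  exact Ioo_subset_Ioc_self (g3 (subset_tsupport _ (left_ne_zero_of_smul hs)))

theorem ode (n : ℝ → ℂ) (hn : Continuous n) (R : ℝ) (k : ℕ)
    (h : ∀ φ, Cl R φ → Cl R (deriv φ) →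
      ∫ s in (0 : ℝ)..R ^ 2, ((k + 1) * φ s + s * deriv φ s) • n s = 0) :
    ∃ c, ∀ s ∈ Ioo 0 (R ^ 2), n s = c * s ^ k := by
  let P : ℝ → ℂ := fun s => ∫ t in (0 : ℝ)..s, n t
  have hP : ∀ s, HasDerivAt P (n s) s := fun s => (hn.integral_hasStrictDerivAt _ s).hasDerivAt
  have cP : Continuous P := continuous_iff_continuousAt.mpr fun s => (hP s).continuousAt
  have h1 := fund (fun s => s * n s - (k + 1) * P s) (by fun_prop) R fun ψ hψ => by
    obtain ⟨φ, h1, rfl⟩ := hψ.prim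
    have c1 := h1.1.continuous
    have c2 := hψ.1.continuous
    have h2 := intervalIntegral.integral_eq_sub_of_hasDerivAt (a := 0) (b := R ^ 2)
      (fun s _ => ((h1.1.differentiable (by simp) s).hasDerivAt.fun_smul (hP s)))
      (Continuous.intervalIntegrable (by fun_prop) _ _)
    rw [h1.2 _ le_rfl] at h2
    simp only [P, intervalIntegral.integral_same, zero_smul, smul_zero, sub_zero] at h2
    have h3 := h φ h1 hψ
    rw [← sub_zero (0 : ℂ), ← mul_zero (k + 1 : ℂ)]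
    nth_rewrite 1 [mul_zero, ← h3]
    rw [← h2, ← intervalIntegral.integral_const_mul, ← intervalIntegral.integral_sub
      (Continuous.intervalIntegrable (by fun_prop) _ _)
      (Continuous.intervalIntegrable (by fun_prop) _ _)]
    refine intervalIntegral.integral_congr fun s _ => ?_
    simp only [real_smul, P]
    push_cast
    ring
  have hQ : ∀ s ∈ Ioo 0 (R ^ 2),
      HasDerivWithinAt (fun s : ℝ => P s / (s : ℂ) ^ (k + 1)) 0 (Ioo 0 (R ^ 2)) s := by
    intro s hs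
    have s0 : (s : ℂ) ≠ 0 := ofReal_ne_zero.mpr hs.1.ne'
    refine (((hP s).fun_div ((hasDerivAt_pow (k + 1) (s : ℂ)).comp_ofReal)
      (pow_ne_zero _ s0)).congr_deriv ?_).hasDerivWithinAt
    have := h1 s hs
    simp only [Nat.add_sub_cancel]
    rw [div_eq_zero_iff]
    left
    push_cast
    linear_combination (s : ℂ) ^ k * this
  rcases (Ioo 0 (R ^ 2)).eq_empty_or_nonempty with e | ⟨s0, hs0⟩
  · exact ⟨0, by simp [e]⟩
  refine ⟨(k + 1) * (P s0 / s0 ^ (k + 1)), fun s hs => ?_⟩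
  have := (convex_Ioo 0 (R ^ 2)).norm_image_sub_le_of_norm_hasDerivWithin_le (C := 0) hQ
    (fun _ _ => by simp) hs0 hs
  rw [zero_mul, norm_le_zero_iff, sub_eq_zero] at this
  have s0 : (s : ℂ) ≠ 0 := ofReal_ne_zero.mpr hs.1.ne'
  have h2 := h1 s hs
  rw [← this, pow_succ]
  field_simp
  linear_combination h2

theorem flat_analytic {f : ℂ → ℂ} (hf : Continuous f) {S : Set ℂ} (hS : Flat S) (R : ℝ)
    (hR : 0 < R) (h : ∀ z ∈ S, ∀ r ∈ Ioo 0 R, (∮ w in C(z, r), f w) = 0) :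
    ∀ z ∈ S, AnalyticAt ℂ f z := by
  have cg : ∀ z, Continuous fun w => f (z + w) := fun z => by fun_prop
  have h0 : ∀ ψ, Cl R ψ → Van f S (Ker 1 0 ψ) := by
    intro ψ hψ z hz
    have := polar _ (cg z) 1 0 hR hψ
    rw [intervalIntegral.integral_of_le (by positivity), integral_Ioc_eq_integral_Ioo,
      setIntegral_eq_zero_of_forall_eq_zero] at this
    · simpa using this
    · intro s hs
      have r0 : 0 < √s := Real.sqrt_pos.mpr hs.1
      have q := circ_eq (fun w => f (z + w)) 1 (√s) r0.ne'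
      have q2 : (∮ w in C(0, √s), w ^ ((1 : ℤ) - 1) * f (z + w)) = ∮ w in C(z, √s), f w := by
        simp [circleIntegral, circleMap]
      rw [q2, h z hz _ ⟨r0, (Real.sqrt_lt' hR).mpr hs.2⟩] at q
      have := (mul_eq_zero.mp q.symm).resolve_left
        (mul_ne_zero I_ne_zero (zpow_ne_zero _ (ofReal_ne_zero.mpr r0.ne')))
      simp [N, this]
  intro z hz
  have sq : ∀ r ∈ Ioo 0 R, r ^ 2 ∈ Ioo 0 (R ^ 2) := fun r hr =>
    ⟨pow_pos hr.1 2, pow_lt_pow_left₀ hr.2 hr.1.le two_ne_zero⟩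
  have ha := analytic_of_moments _ (cg z) R hR (fun m r hr => by
    have := fund _ (N_cont _ (cg z) (m + 1) (m + 1)) R (fun ψ hψ => by
      have := polar _ (cg z) (m + 1) 0 hR hψ
      rw [fam1 hf hS R h0 m ψ hψ z hz] at this
      simpa using this.symm) _ (sq r hr)
    rw [N, Real.sqrt_sq hr.1.le] at this
    exact (mul_eq_zero.mp this).resolve_left (pow_ne_zero _ (ofReal_ne_zero.mpr hr.1.ne')))
    (fun k => by
    obtain ⟨c, hc⟩ := ode _ (N_cont _ (cg z) (-k) k) R k fun φ h1 h2 => by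
      have := polar _ (cg z) 0 k hR (h1.der h2 (k + 1))
      rw [fam2 hf hS R h0 k φ h1 h2 z hz] at this
      simpa using this.symm
    refine ⟨c, fun r hr => ?_⟩
    have := hc _ (sq r hr)
    rw [N, Real.sqrt_sq hr.1.le] at this
    refine mul_left_cancel₀ (pow_ne_zero k (ofReal_ne_zero.mpr hr.1.ne')) (this.trans ?_)
    push_cast
    ring)
  have := AnalyticAt.comp_of_eq (g := fun w => f (z + w)) (f := fun w => w - z) (x := z) ha
    (by fun_prop) (sub_self z)
  simpa [Function.comp_def] using this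

end Pool.Agent.H.MP_be4214_an
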