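import Mathlib
import Pool.Agent.H.MP_be4214_an.Ker
import Pool.Agent.H.MP_be4214_an.Graph

set_option autoImplicit false

namespace Pool.Agent.H.MP_be4214_an

open Complex Set Filter Topology MeasureTheory
open scoped Real

theorem core (f : ℂ → ℂ) (hf : Continuous f) (U : Set ℂ) (hU : IsOpen U) (R : ℝ) (hR : 0 < R)
    (h : ∀ z ∈ U, ¬ AnalyticAt ℂ f z → ∀ r ∈ Ioo 0 R, (∮ w in C(z, r), f w) = 0) :
    ∀ z ∈ U, AnalyticAt ℂ f z := by
  let S := {z ∈ U | ¬ AnalyticAt ℂ f z}
  have hS : Flat S := by
    intro G hG h0 z hz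
    have dir : ∀ u : ℂ, ‖u‖ = 1 → fderiv ℝ G z (u * I) = 0 := by
      intro u hu
      by_contra hne
      set T := fderiv ℝ G z with hT
      set t := ‖T (u * I)‖ with ht
      have t0 : 0 < t := norm_pos_iff.mpr hne
      have hs := (hG.contDiffAt (x := z)).hasStrictFDerivAt one_ne_zero
      have h1 := Asymptotics.isLittleO_iff.mp hs.isLittleO (half_pos t0)
      rw [nhds_prod_eq] at h1
      obtain ⟨W, hW, hW2⟩ := (eventually_prod_self_iff
        (r := fun p q => ‖G p - G q - T (p - q)‖ ≤ t / 2 * ‖p - q‖)).mp h1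
      have u0 : u ≠ 0 := by rintro rfl; simp at hu
      have hd := graph_removable (fun w => f (u * w)) (by fun_prop)
        ((fun w => u * w) ⁻¹' (interior W ∩ U)) ((isOpen_interior.inter hU).preimage (by fun_prop))
        ((t / 2 + ‖T u‖) / (t / 2)) (by positivity) ((fun w => u * w) ⁻¹' (W ∩ S))
        (fun w hw w' hw' => by
          have k := hW2 (u * w) hw.1 (u * w') hw'.1
          simp only [h0 _ hw.2, h0 _ hw'.2, sub_self, zero_sub, norm_neg] at k
          have e : u * w - u * w' = (w.re - w'.re) • u + (w.im - w'.im) • (u * I) := by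
            rw [← mul_sub]
            nth_rewrite 1 [← re_add_im (w - w')]
            simp only [real_smul, sub_re, sub_im]
            ring
          rw [e, map_add, map_smul, map_smul] at k
          generalize w.re - w'.re = a at *
          generalize w.im - w'.im = b at *
          have k1 := norm_add_le (a • u) (b • (u * I))
          have k2 := norm_sub_le (a • T u + b • T (u * I)) (a • T u)
          simp only [norm_smul, norm_mul, hu, norm_I, mul_one, add_sub_cancel_left,
            Real.norm_eq_abs, ← ht] at k1 k2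
          rw [div_mul_eq_mul_div, le_div_iff₀ (half_pos t0)]
          nlinarith)
        (fun w hw hw2 => by
          have : AnalyticAt ℂ f (u * w) := by
            by_contra k
            exact hw2 ⟨interior_subset hw.1, hw.2, k⟩
          exact this.differentiableAt.comp w (by fun_prop))
      refine hz.2 (DifferentiableOn.analyticAt (s := interior W ∩ U) (fun w hw => ?_)
        ((isOpen_interior.inter hU).mem_nhds ⟨mem_interior_iff_mem_nhds.mpr hW, hz.1⟩))
      have e : ∀ w, u * (u⁻¹ * w) = w := fun w => mul_inv_cancel_left₀ u0 w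
      have := (hd.differentiableAt (x := u⁻¹ * w)
        (((isOpen_interior.inter hU).preimage (by fun_prop)).mem_nhds
          (by simpa [e] using hw))).comp w (f := fun w => u⁻¹ * w) (by fun_prop)
      simpa [Function.comp_def, e] using this.differentiableWithinAt
    intro v
    have e : v = v.re • (-I * I) + v.im • (1 * I) := by
      apply Complex.ext <;> simp
    rw [e, map_add, map_smul, map_smul, dir (-I) (by simp), dir 1 (by simp)]
    simp
  intro z hz
  by_contra hn
  exact hn (flat_analytic hf hS R hR (fun z hz => h z hz.1 hz.2) z ⟨hz, hn⟩)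

theorem main (D : Set ℂ) (hD : IsOpen D) (f : ℂ → ℂ) (hf : ContinuousOn f D)
    (h : ∀ z ∈ D, ∃ r₀ > 0, ∀ r, 0 < r → r ≤ r₀ → Metric.closedBall z r ⊆ D →
      (∮ w in C(z, r), f w) = 0) : DifferentiableOn ℂ f D := by
  intro z₀ hz₀
  obtain ⟨ρ', ρ0, hρ⟩ := Metric.nhds_basis_closedBall.mem_iff.mp (hD.mem_nhds hz₀)
  set ρ := ρ' / 2 with hρ2
  have ρ1 : 0 < ρ := half_pos ρ0
  obtain ⟨g, hg⟩ := ContinuousMap.exists_restrict_eq (Metric.isClosed_closedBall (x := z₀) (ε := ρ'))
    (⟨_, (hf.mono hρ).domRestrict⟩ : C(Metric.closedBall z₀ ρ', ℂ))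
  have hg' : ∀ w ∈ Metric.closedBall z₀ ρ', g w = f w := fun w hw =>
    DFunLike.congr_fun hg ⟨w, hw⟩
  suffices ha : AnalyticAt ℂ g z₀ from
    (ha.congr (mem_of_superset (Metric.closedBall_mem_nhds z₀ ρ0) hg')
      ).differentiableAt.differentiableWithinAt
  by_contra hn
  let X := {z ∈ Metric.closedBall z₀ ρ | ¬ AnalyticAt ℂ g z}
  have hX : IsClosed X := Metric.isClosed_closedBall.inter (isOpen_analyticAt ℂ g).isClosed_compl
  have := hX.completeSpace_coe
  let Y : ℕ → Set X := fun n =>
    {z | ∀ r ∈ Ioo 0 (min ρ (1 / (n + 1))), (∮ w in C(z, r), g w) = 0}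
  have hY : ∀ n, IsClosed (Y n) := by
    intro n
    simp only [Y, Set.ofPred_forall]
    refine isClosed_iInter fun r => isClosed_iInter fun _ => isClosed_eq ?_ continuous_const
    simp only [circleIntegral, deriv_circleMap]
    refine intervalIntegral.continuous_parametric_intervalIntegral_of_continuous' ?_ _ _
    unfold circleMap
    fun_prop
  have hU : ⋃ n, Y n = univ := by
    refine eq_univ_of_forall fun z => ?_
    have sub : ∀ r ≤ ρ, Metric.closedBall (z : ℂ) r ⊆ Metric.closedBall z₀ ρ' := fun r hr =>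
      Metric.closedBall_subset_closedBall' (by linarith [Metric.mem_closedBall.mp z.2.1])
    obtain ⟨r₀, r0, hr⟩ := h z (hρ (sub ρ le_rfl (Metric.mem_closedBall_self ρ1.le)))
    obtain ⟨n, hn⟩ := exists_nat_one_div_lt r0
    refine mem_iUnion.mpr ⟨n, fun r hr' => ?_⟩
    have h1 := lt_min_iff.mp hr'.2
    rw [← hr r hr'.1 (h1.2.trans hn).le ((sub r h1.1.le).trans hρ)]
    exact circleIntegral.integral_congr hr'.1.le fun w hw =>
      hg' w (sub r h1.1.le (Metric.sphere_subset_closedBall hw))
  obtain ⟨x, x1, x2⟩ := (dense_iUnion_interior_of_closed hY hU).inter_open_nonempty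
    (Subtype.val ⁻¹' Metric.ball z₀ ρ) (Metric.isOpen_ball.preimage continuous_subtype_val)
    ⟨⟨z₀, Metric.mem_closedBall_self ρ1.le, hn⟩, Metric.mem_ball_self ρ1⟩
  obtain ⟨n, hn⟩ := mem_iUnion.mp x2
  obtain ⟨u, hu, hu2⟩ := (mem_nhds_subtype _ _ _).mp (mem_interior_iff_mem_nhds.mp hn)
  exact x.2.2 (core g g.continuous (interior u ∩ Metric.ball z₀ ρ)
    (isOpen_interior.inter Metric.isOpen_ball) (min ρ (1 / (n + 1))) (by positivity)
    (fun z hz hz2 => hu2 (a := ⟨z, Metric.ball_subset_closedBall hz.2, hz2⟩) 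
      (interior_subset (s := u) hz.1))
    x ⟨mem_interior_iff_mem_nhds.mpr hu, x1⟩)

end Pool.Agent.H.MP_be4214_an
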